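import Mathlib

set_option autoImplicit false

/-!
Project Y360-RR (owner helper360), MP_1cdd17_nt: the Rogers-Ramanujan continued fraction
diverges at every point of the unit circle that is not a root of unity.
Statements of the self-contained sub-tasks.
-/

open Filter Topology Finset

namespace Pool.Agent.Y360.RR

/-- `e t = exp (2 π i t)` -/
noncomputable def e (t : ℝ) : ℂ := Complex.exp ((2 * Real.pi * t : ℝ) * Complex.I)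

/-- numerators `A_{n-1}` -/
noncomputable def a (x : ℂ) : ℕ → ℂ
  | 0 => 1
  | 1 => 1
  | n + 2 => a x (n + 1) + x ^ (n + 1) * a x n

/-- denominators `B_{n-1}` -/
noncomputable def b (x : ℂ) : ℕ → ℂ
  | 0 => 0
  | 1 => 1
  | n + 2 => b x (n + 1) + x ^ (n + 1) * b x n

/-- squared length of the vector `(a, b)` -/
noncomputable def V (x : ℂ) (n : ℕ) : ℝ := ‖a x n‖ ^ 2 + ‖b x n‖ ^ 2

/-- the determinant of two of these vectors -/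
noncomputable def Del (x : ℂ) (m n : ℕ) : ℂ := a x m * b x n - b x m * a x n

/-- the coefficients of `Q` -/
noncomputable def c (x : ℂ) : ℕ → ℕ → ℂ
  | 0, 0 => 1
  | 0, _ + 1 => 0
  | 1, 0 => 1
  | 1, _ + 1 => 0
  | _ + 2, 0 => 1
  | N + 2, j + 1 => c x (N + 1) (j + 1) + x ^ (N + 1) * c x N j

/-- `Q_N (z) = ∑ x ^ (j ^ 2) [N - j; j] z ^ j`, so `Q_{N+2} (z) = Q_{N+1} (z) + z x ^ (N+1) Q_N (z)` -/
noncomputable def Q (x : ℂ) (N : ℕ) (z : ℂ) : ℂ := ∑ j ∈ range (N / 2 + 1), c x N j * z ^ j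

/-- `f s θ = 2 cosh s - 2 cos (2 π θ) = |1 - e^{-s} e(θ)| ^ 2 e ^ s` -/
noncomputable def f (s θ : ℝ) : ℝ := 2 * Real.cosh s - 2 * Real.cos (2 * Real.pi * θ)

/-- the `θ`-derivative of `log f` -/
noncomputable def L (s θ : ℝ) : ℝ := 4 * Real.pi * Real.sin (2 * Real.pi * θ) / f s θ

/-- the generating series of `V` in product form -/
noncomputable def Phi (x u : ℂ) : ℂ :=
  ∑' g : ℕ, u ^ g * ∏ i ∈ range (2 * g + 1), (1 - u * x ^ i * x⁻¹ ^ g)⁻¹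

/-- denominators of good approximations -/
structure Appr (t : ℝ) (q : ℕ → ℕ) (p : ℕ → ℤ) : Prop where
  q0 : q 0 = 1
  mono : StrictMono q
  cop : ∀ k, IsCoprime (p k) (q k : ℤ)
  err : ∀ k, |(q k : ℝ) * t - p k| ≤ 1 / (q (k + 1) : ℝ)

/-- task GRAM -/
def S_GRAM : Prop := ∀ x : ℂ, ‖x‖ = 1 → (∀ n : ℕ, 0 < n → x ^ n ≠ 1) → ∀ m n : ℕ,
  a x m * (starRingEnd ℂ) (a x n) + b x m * (starRingEnd ℂ) (b x n) = Q x (m + n) (x⁻¹ ^ n)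

/-- task DET -/
def S_DET : Prop := ∀ x : ℂ, ‖x‖ = 1 → ∀ m r : ℕ,
  ‖Del x m (m + 1 + r)‖ = ‖Q x r (x ^ (m + 1))‖

/-- task GEN -/
def S_GEN : Prop := ∀ x : ℂ, ‖x‖ = 1 → (∀ n : ℕ, 0 < n → x ^ n ≠ 1) → ∀ u : ℂ, ‖u‖ < 1 / 16 →
  HasSum (fun n : ℕ => (V x n : ℂ) * u ^ n) (Phi x u)

/-- task PROD -/
def S_PROD : Prop := ∀ (q : ℕ) (p : ℤ), 0 < q → IsCoprime p (q : ℤ) → ∀ s θ : ℝ,
  ∏ i ∈ range q, f s (θ + i * (p / q)) = f (q * s) (q * θ)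

/-- task LIP -/
def S_LIP : Prop := ∀ s : ℝ, 0 < s → ∀ θ d : ℝ,
  |Real.log (f s (θ + d)) - Real.log (f s θ)| ≤ 2 * Real.pi / s * |d|

/-- task INV -/
def S_INV : Prop := ∃ C : ℝ, 0 < C ∧ ∀ (q : ℕ) (p : ℤ), 0 < q → IsCoprime p (q : ℤ) →
  ∀ s θ : ℝ, 0 < s → s ≤ 1 →
  ∑ i ∈ range q, (f s (θ + i * (p / q)))⁻¹ ≤ C * (q / s + 1 / s ^ 2)

/-- task LSUM -/
def S_LSUM : Prop := ∀ (q : ℕ) (p : ℤ), 0 < q → IsCoprime p (q : ℤ) → ∀ s θ : ℝ, 0 < s →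
  |∑ i ∈ range q, L s (θ + i * (p / q))| ≤ 2 * Real.pi / s

/-- task LBD -/
def S_LBD : Prop := ∀ s θ : ℝ, 0 < s → |L s θ| ≤ 2 * Real.pi / s

/-- task LDIFF -/
def S_LDIFF : Prop := ∀ s θ d : ℝ, 0 < s →
  |L s (θ + d) - L s θ| ≤ 24 * Real.pi ^ 2 * |d| * Real.exp (2 * Real.pi * |d| / s) / f s θ

/-- task GDEC -/
def S_GDEC : Prop := ∃ C : ℝ, 0 < C ∧ ∀ s θ : ℝ, 0 < s → s ≤ 1 →
  |L (2 * s) θ - L s θ| ≤ C * s / f s θ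

/-- task CF -/
def S_CF : Prop := ∀ t : ℝ, Irrational t → ∃ (q : ℕ → ℕ) (p : ℕ → ℤ), Appr t q p

/-- task BLOCK -/
def S_BLOCK : Prop := ∃ C₀ : ℝ, 0 < C₀ ∧ ∀ (t : ℝ) (q : ℕ → ℕ) (p : ℕ → ℤ), Appr t q p →
  ∀ A : ℝ, 1 ≤ A → ∀ k : ℕ,
  (∀ j < k, (q (j + 1) : ℝ) / q j ≤ A * ((q (k + 1) : ℝ) / q k)) →
  ∀ r : ℝ, 1 ≤ r → r ≤ q k → ∀ θ : ℝ,
  Real.log (2 * Real.cosh r - 2) - C₀ * A ≤ ∑ i ∈ range (q k), Real.log (f (r / q k) (θ + i * t))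

/-- task SAMP -/
def S_SAMP : Prop := ∀ (t : ℝ) (p : ℤ) (q D : ℕ), 0 < q → IsCoprime p (q : ℤ) → D ≤ q →
  100 * (D : ℝ) * |(q : ℝ) * t - p| ≤ 1 → ∀ w : ℕ → ℂ,
  (q : ℝ) / 4 * ∑ j ∈ range D, ‖w j‖ ^ 2
      ≤ ∑ m ∈ range q, ‖∑ j ∈ range D, w j * e (t * m * j)‖ ^ 2 ∧
  ∑ m ∈ range q, ‖∑ j ∈ range D, w j * e (t * m * j)‖ ^ 2
      ≤ 4 * q * ∑ j ∈ range D, ‖w j‖ ^ 2

/-- task TRACE -/
def S_TRACE : Prop := ∀ t : ℝ, Irrational t → ∀ s : ℝ, 0 < s →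
  Summable (fun n : ℕ => V (e t) n * Real.exp (-(s * n))) ∧
  Summable (fun g : ℕ => ∏ i ∈ range g, (f s ((i + 1) * t))⁻¹) ∧
  (1 - Real.exp (-s)) * ∑' n : ℕ, V (e t) n * Real.exp (-(s * n))
    = ∑' g : ℕ, ∏ i ∈ range g, (f s ((i + 1) * t))⁻¹

/-- task MASS -/
def S_MASS : Prop := ∀ t : ℝ, Irrational t → ∃ K : ℝ, 0 < K ∧ ∀ ε : ℝ, 0 < ε →
  ∃ (s : ℝ) (D q : ℕ) (p : ℤ), 0 < s ∧ s < ε ∧ 0 < q ∧ D ≤ q ∧ IsCoprime p (q : ℤ) ∧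
  100 * (D : ℝ) * |(q : ℝ) * t - p| ≤ 1 ∧ s * q ≤ K ∧
  ∑' n : ℕ, V (e t) n * Real.exp (-(s * n))
    ≤ 2 * ∑ n ∈ range D, V (e t) n * Real.exp (-(s * n))

/-- task DIV: no convergence (in the sense of the Cauchy property for the chordal distance) -/
def S_DIV : Prop := ∀ t : ℝ, Irrational t →
  ¬ (∀ η : ℝ, 0 < η → ∃ n₀ : ℕ, ∀ m n : ℕ, n₀ ≤ m → n₀ ≤ n →
    ‖Del (e t) m n‖ ^ 2 ≤ η * (V (e t) m * V (e t) n))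

end Pool.Agent.Y360.RR
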